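import Pool.Agent.H82.PRP.Stmts
import Pool.Agent.H27.PRP.SHI

/-!
# Board `ppg`, module RES
-/

set_option autoImplicit false

namespace Pool.Agent.H82.PRP.RES

open Filter Topology

variable {p : ℕ} {G : Type} [Group G] [TopologicalSpace G] [IsTopologicalGroup G]
  {V W : Type} [AddCommGroup V] [Module (ZMod p) V] [AddCommGroup W] [Module (ZMod p) W]

/-- the representation on the kernel of an equivariant map -/
def kerRep (d : LC p G V →ₗ[ZMod p] LC p G W)
    (hd : ∀ g a, d (lrep p G V g a) = lrep p G W g (d a)) :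
    Representation (ZMod p) G (LinearMap.ker d) where
  toFun g := (lrep p G V g).restrict (fun x hx => by
    rw [LinearMap.mem_ker] at hx ⊢
    rw [hd, hx, map_zero])
  map_one' := by
    apply LinearMap.ext
    intro x
    apply Subtype.ext
    simp [LinearMap.restrict_apply]
  map_mul' := by
    intro g h
    apply LinearMap.ext
    intro x
    apply Subtype.ext
    simp [LinearMap.restrict_apply]

theorem kerRep_coe (d : LC p G V →ₗ[ZMod p] LC p G W)
    (hd : ∀ g a, d (lrep p G V g a) = lrep p G W g (d a)) (g : G) (x : LinearMap.ker d) :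
    ((kerRep d hd g x : LinearMap.ker d) : LC p G V) = lrep p G V g (x : LC p G V) := rfl

/-- constant functions -/
def cst (p : ℕ) (G : Type) [TopologicalSpace G] : ZMod p →ₗ[ZMod p] LC p G (ZMod p) where
  toFun c := ⟨fun _ => c, IsLocallyConstant.const c⟩
  map_add' := fun _ _ => rfl
  map_smul' := fun _ _ => rfl

omit [TopologicalSpace G] [IsTopologicalGroup G] in
theorem dM_trivial (n : ℕ) (f : (Fin n → G) → ZMod p) :
    dM (Representation.trivial (ZMod p) G (ZMod p)) n f = dco p G n f := by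
  funext g
  simp only [dM, dco, Representation.trivial_apply, smul_eq_mul]

end RES

theorem res_thm (hACY : ACYStmt) (hSHI : SHIStmt) : RESStmt := by
  intro p _ G _ _ _ _ T d₁ d₂ h1 h2 hk1 hk2 hs
  have hd21 : ∀ a, d₂ (d₁ a) = 0 := fun a => (hk2 (d₁ a)).2 ⟨a, rfl⟩
  -- second sequence
  have key2 : ∀ n, HV (RES.kerRep d₂ h2) (n + 1) := by
    intro n
    refine hSHI p G (LinearMap.ker d₂) (LC p G (Fin 3 → ZMod p)) (LC p G (T →₀ ZMod p))
      (RES.kerRep d₂ h2) (lrep p G (Fin 3 → ZMod p)) (lrep p G (T →₀ ZMod p))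
      (LinearMap.ker d₂).subtype d₂ ?_ ?_ ?_ hs ?_ ?_ n (hACY p G _ (n + 1)) (hACY p G _ n)
    · intro g a
      rfl
    · intro g b
      exact h2 g b
    · exact Subtype.val_injective
    · exact SHI.lrep_smooth p G (Fin 3 → ZMod p)
    · intro b
      constructor
      · intro hb
        exact ⟨⟨b, hb⟩, rfl⟩
      · rintro ⟨a, rfl⟩
        exact a.2
  -- first sequence
  have key1 : ∀ n, HV (Representation.trivial (ZMod p) G (ZMod p)) (n + 2) := by
    intro n
    refine hSHI p G (ZMod p) (LC p G (ZMod p)) (LinearMap.ker d₂)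
      (Representation.trivial (ZMod p) G (ZMod p)) (lrep p G (ZMod p)) (RES.kerRep d₂ h2)
      (RES.cst p G) (d₁.codRestrict (LinearMap.ker d₂) (fun a => hd21 a)) ?_ ?_ ?_ ?_ ?_ ?_ (n + 1)
      (hACY p G _ (n + 2)) (key2 n)
    · intro g a
      rfl
    · intro g b
      apply Subtype.ext
      exact h1 g b
    · intro a b hab
      have := congrArg (fun φ : LC p G (ZMod p) => φ.1 1) hab
      exact this
    · rintro ⟨b, hb⟩
      obtain ⟨a, ha⟩ := (hk2 b).1 hb
      exact ⟨a, Subtype.ext ha⟩
    · exact SHI.lrep_smooth p G (ZMod p)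
    · intro b
      have e : (d₁.codRestrict (LinearMap.ker d₂) (fun a => hd21 a)) b = 0 ↔ d₁ b = 0 := by
        constructor
        · intro h
          exact congrArg Subtype.val h
        · intro h
          exact Subtype.ext h
      rw [e, hk1]
      constructor
      · rintro ⟨c, hc⟩
        exact ⟨c, Subtype.ext (funext fun x => (hc x).symm)⟩
      · rintro ⟨c, rfl⟩
        exact ⟨c, fun x => rfl⟩
  intro n hn
  obtain ⟨m, rfl⟩ : ∃ m, n = m + 2 := ⟨n - 2, by omega⟩
  intro f hf hdf
  rw [← RES.dM_trivial] at hdf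
  obtain ⟨h, hh, hhf⟩ := key1 m f hf hdf
  refine ⟨h, hh, ?_⟩
  rw [← RES.dM_trivial]
  exact hhf

end Pool.Agent.H82.PRP
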